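import Pool.Agent.QInv75.Defs
import Pool.Agent.QInv75.A1
import Pool.Agent.QInv75.A2
import Pool.Agent.QInv75.A3
import Pool.Agent.QInv75.A4
import Pool.Agent.QInv75.A5
import Pool.Agent.QInv75.A6
import Pool.Agent.QInv75.B3
import Pool.Agent.QInv75.B4
import Pool.Agent.QInv75.B5
import Pool.Agent.QInv75.C1
import Pool.Agent.QInv75.C3
import Pool.Agent.QInv75.E9
import Pool.Agent.QInv75.Pi1

/-!
# The quantum `G` invariants and the quantum `PG` invariants do not separate rational homology spheres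

The two manifolds are the surgeries with framing `6` on the knots `K₁ # K₂` and `K₁ # rK₂`, where
`rK₂` is `K₂` with the reversed orientation (its braid word is read backwards).
-/

set_option autoImplicit false

open Pool.Agent.QInv75

namespace Pool.Agent.Results.MP_76ff03_gt.NotSeparated

theorem not_iso : IsEmpty (SurgeryGroup wM ≃* SurgeryGroup wN) :=
  not_iso_of (fun w Q => hom_bij w Q) (fun w w' => lab_sh w w') (fun w w' => lon_sh w w')
    (fun w => lab_abelian w) exists_counts isKnot_wa isKnot_wb isKnot_wb_rev isKnot_wM isKnot_wN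

variable {X : Dynkin} {Φ : WeightForm X} {Λ : Finset X.Weight}

/-- the partial trace does not see the orientation of the strand that is not closed -/
theorem pT_rev (S : Model Φ Λ) (w : BraidWord 2) : pT S w = pT S w.reverse := by
  obtain ⟨G, hG⟩ := exists_form S
  have h1 := pT_adj S hG.unit (h_adj S hG) (C_adj S hG) (C'_adj S hG) w
  have h2 := comm_adj S hG (pT S w) (pT_comm S w).1 (pT_comm S w).2.1 (pT_comm S w).2.2
  rw [h2] at h1
  exact hG.unit.mul_left_cancel h1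

theorem model_eq (S : Model Φ Λ) : S.sumJ wM = S.sumJ wN :=
  sumJ_congr S wa wb wb.reverse (pT_rev S wb) isKnot_wM isKnot_wN

theorem sumJ_eq (Φ : WeightForm X) (Λ : Finset X.Weight) : sumJ Φ Λ wM = sumJ Φ Λ wN := by
  unfold sumJ
  split_ifs with h
  · exact model_eq _
  · rfl

theorem sumJ_model {n : ℕ} (S : Model Φ Λ) (w : BraidWord n) : sumJ Φ Λ w = S.sumJ w := by
  unfold sumJ
  rw [dif_pos ⟨S⟩]
  exact sumJ_unique _ _ w

theorem rt_eq (Φ : WeightForm X) (Λ : Finset X.Weight) (t₀ : ℂ) :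
    rt Φ Λ t₀ wM = rt Φ Λ t₀ wN := by
  unfold rt
  rw [sumJ_eq, bPlus_eq, bMinus_eq]

/-- **Main theorem.** -/
theorem result :
    -- the invariants are well defined: the invariant form and the models exist, and the state sum
    -- does not depend on the model
    ((∀ X : Dynkin, Nonempty (WeightForm X)) ∧
      (∀ (X : Dynkin) (Φ : WeightForm X) (Λ : Finset X.Weight), (∀ l ∈ Λ, ∀ i, 0 ≤ l i) →
        Nonempty (Model Φ Λ)) ∧
      ∀ (X : Dynkin) (Φ : WeightForm X) (Λ : Finset X.Weight) (S : Model Φ Λ) (n : ℕ)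
        (w : BraidWord n), sumJ Φ Λ w = S.sumJ w) ∧
    -- two surgeries which are not distinguished by them
    ∃ w₁ w₂ : BraidWord 4, IsKnot w₁ ∧ IsKnot w₂ ∧
      Nonempty (Abelianization (SurgeryGroup w₁) ≃* Multiplicative (ZMod 6)) ∧
      Nonempty (Abelianization (SurgeryGroup w₂) ≃* Multiplicative (ZMod 6)) ∧
      IsEmpty (SurgeryGroup w₁ ≃* SurgeryGroup w₂) ∧
      (∀ (M N : Type) [TopologicalSpace M] [TopologicalSpace N] [PathConnectedSpace N] (x : M)
        (y : N), Nonempty (FundamentalGroup M x ≃* SurgeryGroup w₁) →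
        Nonempty (FundamentalGroup N y ≃* SurgeryGroup w₂) → IsEmpty (M ≃ₜ N)) ∧
      (∀ (X : Dynkin) (Φ : WeightForm X) (k : ℕ),
        tau Φ k w₁ = tau Φ k w₂ ∧ tauP Φ k w₁ = tauP Φ k w₂) ∧
      ∀ (X : Dynkin) (Φ : WeightForm X) (Λ : Finset X.Weight),
        sumJ Φ Λ w₁ = sumJ Φ Λ w₂ ∧ ∀ t₀ : ℂ, rt Φ Λ t₀ w₁ = rt Φ Λ t₀ w₂ := by
  refine ⟨⟨exists_weightForm, fun X Φ Λ h => Ex.exists_model Φ Λ h,
    fun X Φ Λ S n w => sumJ_model S w⟩, wM, wN, isKnot_wM, isKnot_wN, ab_wM, ab_wN, not_iso, ?_,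
    fun X Φ k => ⟨rt_eq _ _ _, rt_eq _ _ _⟩, fun X Φ Λ => ⟨sumJ_eq Φ Λ, rt_eq Φ Λ⟩⟩
  rintro M N _ _ _ x y ⟨e₁⟩ ⟨e₂⟩
  refine ⟨fun e => ?_⟩
  obtain ⟨f⟩ := pi1_of_homeo e x y
  exact not_iso.false ((e₁.symm.trans f).trans e₂)

end Pool.Agent.Results.MP_76ff03_gt.NotSeparated
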